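import Pool.Agent.Helper41.LD.Seq

/-!
# LD3, block LEN, first half: the lengths of the windows
-/

set_option autoImplicit false

namespace Pool.Agent.Helper41.LD3

open Set Filter Topology
open Pool.Agent.Helper41.LD (Kk Kk_ge)

variable {κ : ℕ}

/-- the length of the windows of level `k` -/
noncomputable def ll (κ K₀ : ℕ) (ℓ₀ : ℝ) (k : ℕ) : ℝ := ℓ₀ / 2 ^ (∑ j ∈ Finset.range k, Kk K₀ j ^ (2 * κ + 1))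

/-- the first exponent beyond the level `k` -/
noncomputable def nu (κ K₀ : ℕ) (ℓ₀ θ : ℝ) (k : ℕ) : ℕ := sInf {n : ℕ | 1 ≤ θ ^ n * ll κ K₀ ℓ₀ k}

theorem ll_pos {ℓ₀ : ℝ} (hℓ₀ : 0 < ℓ₀) (K₀ k : ℕ) : 0 < ll κ K₀ ℓ₀ k := by
  unfold ll
  positivity

theorem ll_succ (K₀ : ℕ) (ℓ₀ : ℝ) (k : ℕ) : ll κ K₀ ℓ₀ (k + 1) = ll κ K₀ ℓ₀ k / 2 ^ (Kk K₀ k ^ (2 * κ + 1)) := by
  unfold ll
  rw [Finset.sum_range_succ, pow_add, div_div]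

theorem ll_anti {ℓ₀ : ℝ} (hℓ₀ : 0 < ℓ₀) (K₀ : ℕ) {k k' : ℕ} (h : k ≤ k') : ll κ K₀ ℓ₀ k' ≤ ll κ K₀ ℓ₀ k := by
  unfold ll
  refine div_le_div_of_nonneg_left hℓ₀.le (by positivity) (pow_le_pow_right₀ (by norm_num) ?_)
  exact Finset.sum_le_sum_of_subset (Finset.range_subset_range.2 h)

theorem ll_le {ℓ₀ : ℝ} (hℓ₀ : 0 < ℓ₀) {K₀ : ℕ} (hK₀ : 1 ≤ K₀) (k : ℕ) : ll κ K₀ ℓ₀ k ≤ ℓ₀ * (1 / 2) ^ k := by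
  have h1 : k ≤ ∑ j ∈ Finset.range k, Kk K₀ j ^ (2 * κ + 1) := by
    calc k = ∑ _j ∈ Finset.range k, 1 := by simp
      _ ≤ ∑ j ∈ Finset.range k, Kk K₀ j ^ (2 * κ + 1) :=
        Finset.sum_le_sum fun j _ => Nat.one_le_pow _ _ (hK₀.trans (Kk_ge K₀ j))
  unfold ll
  rw [one_div, inv_pow, ← div_eq_mul_inv]
  exact div_le_div_of_nonneg_left hℓ₀.le (by positivity) (pow_le_pow_right₀ (by norm_num) h1)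

theorem ll_tendsto {ℓ₀ : ℝ} (hℓ₀ : 0 < ℓ₀) {K₀ : ℕ} (hK₀ : 1 ≤ K₀) : Tendsto (ll κ K₀ ℓ₀) atTop (𝓝 0) := by
  have h1 : Tendsto (fun k : ℕ => ℓ₀ * (1 / 2 : ℝ) ^ k) atTop (𝓝 0) := by
    have := (tendsto_pow_atTop_nhds_zero_of_lt_one (r := (1 / 2 : ℝ)) (by norm_num) (by norm_num)).const_mul ℓ₀
    rwa [mul_zero] at this
  exact squeeze_zero (fun k => (ll_pos hℓ₀ K₀ k).le) (fun k => ll_le hℓ₀ hK₀ k) h1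

theorem nu_nonempty {ℓ₀ θ : ℝ} (hℓ₀ : 0 < ℓ₀) (hθ : 1 < θ) (K₀ k : ℕ) : {n : ℕ | 1 ≤ θ ^ n * ll κ K₀ ℓ₀ k}.Nonempty := by
  have hl := ll_pos (κ := κ) hℓ₀ K₀ k
  obtain ⟨n, hn⟩ := pow_unbounded_of_one_lt (1 / ll κ K₀ ℓ₀ k) hθ
  refine ⟨n, ?_⟩
  have := (div_lt_iff₀ hl).1 hn
  exact this.le

theorem nu_spec {ℓ₀ θ : ℝ} (hℓ₀ : 0 < ℓ₀) (hθ : 1 < θ) (K₀ k : ℕ) : 1 ≤ θ ^ nu κ K₀ ℓ₀ θ k * ll κ K₀ ℓ₀ k :=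
  Nat.sInf_mem (nu_nonempty (κ := κ) hℓ₀ hθ K₀ k)

theorem nu_mono {ℓ₀ θ : ℝ} (hℓ₀ : 0 < ℓ₀) (hθ : 1 < θ) (K₀ : ℕ) : Monotone (nu κ K₀ ℓ₀ θ) := by
  intro k k' h
  refine Nat.sInf_le ?_
  have h1 := nu_spec (κ := κ) hℓ₀ hθ K₀ k'
  exact h1.trans (mul_le_mul_of_nonneg_left (ll_anti hℓ₀ K₀ h) (by positivity))

theorem nu_succ {ℓ₀ θ : ℝ} (hℓ₀ : 0 < ℓ₀) (hθ : 1 < θ) (K₀ : ℕ) :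
    ∃ C₁ : ℕ, ∀ k, nu κ K₀ ℓ₀ θ (k + 1) ≤ nu κ K₀ ℓ₀ θ k + C₁ * Kk K₀ k ^ (2 * κ + 1) := by
  obtain ⟨C₁, hC₁⟩ := pow_unbounded_of_one_lt 2 hθ
  refine ⟨C₁, fun k => Nat.sInf_le ?_⟩
  have h1 := nu_spec (κ := κ) hℓ₀ hθ K₀ k
  have h2 : (2 : ℝ) ^ (Kk K₀ k ^ (2 * κ + 1)) ≤ θ ^ (C₁ * Kk K₀ k ^ (2 * κ + 1)) := by
    rw [pow_mul]
    exact pow_le_pow_left₀ (by norm_num) hC₁.le _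
  have hp : (0 : ℝ) < 2 ^ (Kk K₀ k ^ (2 * κ + 1)) := by positivity
  have hθ0 : 0 < θ := by linarith
  show 1 ≤ θ ^ (nu κ K₀ ℓ₀ θ k + C₁ * Kk K₀ k ^ (2 * κ + 1)) * ll κ K₀ ℓ₀ (k + 1)
  rw [ll_succ, pow_add]
  have h3 : θ ^ nu κ K₀ ℓ₀ θ k * θ ^ (C₁ * Kk K₀ k ^ (2 * κ + 1)) * (ll κ K₀ ℓ₀ k / 2 ^ (Kk K₀ k ^ (2 * κ + 1))) =
      (θ ^ nu κ K₀ ℓ₀ θ k * ll κ K₀ ℓ₀ k) * (θ ^ (C₁ * Kk K₀ k ^ (2 * κ + 1)) / 2 ^ (Kk K₀ k ^ (2 * κ + 1))) := by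
    ring
  rw [h3]
  have h4 : 1 ≤ θ ^ (C₁ * Kk K₀ k ^ (2 * κ + 1)) / 2 ^ (Kk K₀ k ^ (2 * κ + 1)) := (one_le_div hp).2 h2
  exact one_le_mul_of_one_le_of_one_le h1 h4

theorem nu_ge {ℓ₀ θ : ℝ} (hℓ₀ : 0 < ℓ₀) (hℓ₀1 : ℓ₀ ≤ 1) (hθ : 1 < θ) {K₀ : ℕ} (hK₀ : 1 ≤ K₀) :
    ∃ C₂ : ℕ, ∀ k, k ≤ C₂ * (nu κ K₀ ℓ₀ θ k + 1) := by
  obtain ⟨C₂, hC₂⟩ := pow_unbounded_of_one_lt θ (show (1 : ℝ) < 2 by norm_num)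
  refine ⟨C₂, fun k => ?_⟩
  have h1 := nu_spec (κ := κ) hℓ₀ hθ K₀ k
  have h2 := ll_le (κ := κ) hℓ₀ hK₀ k
  have hθ0 : 0 < θ := by linarith
  have h3 : θ ^ nu κ K₀ ℓ₀ θ k ≤ 2 ^ (C₂ * nu κ K₀ ℓ₀ θ k) := by
    rw [pow_mul]
    exact pow_le_pow_left₀ hθ0.le hC₂.le _
  have hhalf : (0 : ℝ) < (1 / 2) ^ k := by positivity
  have h4 : (1 : ℝ) ≤ 2 ^ (C₂ * nu κ K₀ ℓ₀ θ k) * (1 / 2) ^ k := by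
    refine h1.trans (mul_le_mul h3 ?_ (ll_pos hℓ₀ K₀ k).le (by positivity))
    exact h2.trans (mul_le_of_le_one_left hhalf.le hℓ₀1)
  have h5 : (2 : ℝ) ^ k ≤ 2 ^ (C₂ * nu κ K₀ ℓ₀ θ k) := by
    have h6 := mul_le_mul_of_nonneg_right h4 (show (0 : ℝ) ≤ 2 ^ k by positivity)
    rw [one_mul, mul_assoc, ← mul_pow] at h6
    norm_num at h6
    exact h6
  have h7 := (pow_le_pow_iff_right₀ (show (1 : ℝ) < 2 by norm_num)).1 h5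
  refine h7.trans (Nat.mul_le_mul_left _ (Nat.le_succ _))

end Pool.Agent.Helper41.LD3
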